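import Pool.Agent.Helper11.MG.Rev
import Pool.Agent.Helper61.AD.PerPoint

/-!
# The closenesses of all pairs of conjugates at `S` plus the discriminant outside `S` (MP_71c16a_nt, helper11)

Exact identity (product formula): for a point `y` of degree `r`, with conjugates `x i` in `N`,
`∑_{ν ∈ S} ∑_{w | ν} ∑_{i ≠ j} cl w (x i) (x j) + [N:k] ∑_{v ∉ S} ord_v(Δ) log N v = (2 r - 2) [N:k] h(y)`.
-/

namespace Pool.Agent.Helper11.MG

open NumberField Finset Polynomial Module
open Pool.Agent.Helper64.Vojta (Pl nv sn above nv_mul nv_pos)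
open Pool.Agent.Helper61.AD
open Pool.Agent.Helper52.Vojta (upW)
open Pool.Agent.V2 (vn vH gsum FinS vH_eq finS_vn vn_pos gsum_add gsum_neg gsum_sum gsum_const_mul
  gsum_nv finS_nv)

universe u

/-- the heights of the conjugates -/
theorem height_conj {k : Type u} [Field k] [NumberField k] {r : ℕ} {L N : Type u} [Field L]
    [NumberField L] [Algebra k L] [Field N] [NumberField N] [Algebra k N] (hL : finrank k L = r)
    (y : L) (hy : (minpoly k y).natDegree = r) (x : Fin r → N)
    (hx : (minpoly k y).map (algebraMap k N) = ∏ i, (X - C (x i))) (i : Fin r) :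
    r * vH (![x i, 1] : Fin 2 → N) = finrank k N * Height.logHeight ![y, 1] := by
  have hfd : FiniteDimensional k L := FiniteDimensional.right ℚ k L
  have hfdN : FiniteDimensional k N := FiniteDimensional.right ℚ k N
  have hroot : aeval (x i) (minpoly k y) = 0 := by
    rw [← eval_map_algebraMap, hx, eval_prod]
    exact Finset.prod_eq_zero (Finset.mem_univ i) (by simp)
  have hx0 : (![x i, 1] : Fin 2 → N) ≠ 0 := fun h => by
    have := congrFun h 1
    simp at this
  have hy0 : (![y, 1] : Fin 2 → L) ≠ 0 := fun h => by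
    have := congrFun h 1
    simp at this
  obtain ⟨σ, hs⟩ := LA.exists_hom y (by rw [hy, hL]) (x i) hroot
  let _ : Algebra L N := σ.toRingHom.toAlgebra
  have : IsScalarTower k L N := IsScalarTower.of_algebraMap_eq fun a => (σ.commutes a).symm
  have hv : (![x i, 1] : Fin 2 → N) = fun j => algebraMap L N ((![y, 1] : Fin 2 → L) j) := by
    funext j
    fin_cases j
    · exact hs.symm
    · exact (map_one (algebraMap L N)).symm
  have hfr : (finrank k N : ℝ) = r * finrank L N := by
    rw [← hL]
    exact_mod_cast (finrank_mul_finrank k L N).symm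
  rw [vH_eq hx0, hv, Pool.Agent.Helper52.Vojta.logHeight_algebraMap hy0, hfr]
  ring

theorem disc_eq {k : Type u} [Field k] [NumberField k] (S : Finset (Pl k))
    (hS : ∀ v : InfinitePlace k, Sum.inl v ∈ S) (r : ℕ) (hr : 0 < r) (L N : Type u) [Field L]
    [NumberField L] [Algebra k L] [Field N] [NumberField N] [Algebra k N] (hL : finrank k L = r)
    (y : L) (hy : (minpoly k y).natDegree = r) (x : Fin r → N)
    (hx : (minpoly k y).map (algebraMap k N) = ∏ i, (X - C (x i))) :
    ∑ ν ∈ S, ∑ w ∈ above N ν, ∑ i, ∑ j ∈ Finset.univ.erase i, cl w (x i) (some (x j)) +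
      finrank k N * (∑ᶠ (v : FinitePlace k) (_ : Sum.inr v ∉ S),
          ((2 * r - 2) * Real.log (vn (.inr v) (cf r (minpoly k y))) -
            Real.log (nv (.inr v) (minpoly k y).discr))) =
      (2 * r - 2) * (finrank k N * Height.logHeight ![y, 1]) := by
  classical
  have hfd : FiniteDimensional k L := FiniteDimensional.right ℚ k L
  have hint : IsIntegral k y := IsIntegral.of_finite k y
  set P := minpoly k y with hPdef
  have hP : P.Monic := minpoly.monic hint
  have hirr : Irreducible P := minpoly.irreducible hint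
  obtain ⟨hdisc, hinj, e, he⟩ := discr_eq hr P hP hirr hy x hx
  have hr' : (0 : ℝ) < r := by exact_mod_cast hr
  have hcf : cf r P ≠ 0 := by
    intro h
    have := congrFun h (Fin.last r)
    simp only [cf, Fin.val_last, Pi.zero_apply] at this
    rw [← hy] at this
    rw [coeff_natDegree, hP.leadingCoeff] at this
    exact one_ne_zero this
  have hdiscN : algebraMap k N P.discr ≠ 0 := by
    rw [Ne, map_eq_zero]
    exact hdisc
  have hx0 : ∀ i, (![x i, 1] : Fin 2 → N) ≠ 0 := fun i h => by
    have := congrFun h 1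
    simp at this
  -- the functions on the places
  set g : Pl k → ℝ := fun ν => (2 * (r : ℝ) - 2) * Real.log (vn ν (cf r P)) - Real.log (nv ν P.discr)
    with hg
  set G : Pl N → ℝ := fun w => (2 * (r : ℝ) - 2) * (∑ i, Real.log (vn w ![x i, 1])) +
    -Real.log (nv w (algebraMap k N P.discr)) with hG
  have hf1 : ∀ i ∈ (Finset.univ : Finset (Fin r)),
      FinS (fun w : Pl N => Real.log (vn w ![x i, 1])) := fun i _ => finS_vn (hx0 i)
  have hGsum : gsum G = (2 * (r : ℝ) - 2) * (finrank k N * Height.logHeight ![y, 1]) := by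
    rw [hG, gsum_add ((FinS.sum _ hf1).const_mul _) (finS_nv hdiscN).neg, gsum_const_mul,
      gsum_sum _ hf1, gsum_neg, gsum_nv hdiscN, neg_zero, add_zero]
    congr 1
    have h1 : ∀ i : Fin r, gsum (fun w : Pl N => Real.log (vn w ![x i, 1])) =
        (finrank k N * Height.logHeight ![y, 1]) / r := by
      intro i
      rw [eq_div_iff hr'.ne', ← height_conj hL y hy x hx i, mul_comm]
      rfl
    rw [Finset.sum_congr rfl fun i _ => h1 i, Finset.sum_const, Finset.card_univ, Fintype.card_fin,
      nsmul_eq_mul]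
    field_simp
  -- local identities
  have hGcl : ∀ w : Pl N, G w = ∑ i, ∑ j ∈ Finset.univ.erase i, cl w (x i) (some (x j)) := by
    intro w
    rw [Fin2.cl_sum w x hinj, hG]
    simp only
    rw [he, Fin2.nv_neg_one_pow]
    rfl
  have hGfin : ∀ w : FinitePlace N, G (.inr w) = (2 * (r : ℝ) - 2) *
      Real.log (vn (.inr w) (cf r (P.map (algebraMap k N)))) -
        Real.log (nv (.inr w) (algebraMap k N P.discr)) := by
    intro w
    have h1 : Real.log (vn (.inr w) (cf r (P.map (algebraMap k N)))) =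
        ∑ i, Real.log (vn (.inr w) ![x i, 1]) := by
      rw [hx, GF.gauss_eq_fin w x]
      exact Real.log_prod fun i _ => (Fin2.sn_one_pos (.inr w) (x i)).ne'
    rw [h1, hG]
    simp only
    ring
  -- the finite set of places
  have hs1 : (Function.support fun v : FinitePlace k => Real.log (vn (.inr v) (cf r P))).Finite :=
    finS_vn hcf
  have hs2 : (Function.support fun v : FinitePlace k => Real.log (nv (.inr v) P.discr)).Finite :=
    finS_nv hdisc
  let T : Finset (Pl k) := S ∪ (hs1.toFinset ∪ hs2.toFinset).image Sum.inr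
  have hST : S ⊆ T := Finset.subset_union_left
  have hT : ∀ v : FinitePlace k, Sum.inr v ∉ T → Real.log (vn (.inr v) (cf r P)) = 0 ∧
      Real.log (nv (.inr v) P.discr) = 0 := by
    intro v hv
    have h1 : v ∉ hs1.toFinset ∪ hs2.toFinset := fun h =>
      hv (Finset.mem_union_right _ (Finset.mem_image_of_mem _ h))
    simp only [Finset.mem_union, Set.Finite.mem_toFinset, Function.mem_support, not_or, not_not] at h1
    exact h1
  have hgT : ∀ ν, ν ∉ T → g ν = 0 := by
    rintro (ν | ν) hν
    · exact absurd (hST (hS ν)) hν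
    · obtain ⟨h1, h2⟩ := hT ν hν
      simp only [hg]
      rw [h1, h2]
      ring
  have hGT : ∀ w, w ∉ upW N T → G w = 0 := by
    intro w hw
    obtain ⟨ν, hν⟩ := Pool.Agent.Helper52.Vojta.exists_below (L := k) w
    have hνT : ν ∉ T := by
      intro h
      apply hw
      unfold upW
      rw [Finset.mem_biUnion]
      exact ⟨ν, h, hν⟩
    rcases ν with ν | ν
    · exact absurd (hST (hS ν)) hνT
    rcases w with w | w
    · exact absurd (Pool.Agent.Helper64.Vojta.mem_above.mp hν) id
    obtain ⟨h1, h2⟩ := hT ν hνT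
    have h3 : cf r (P.map (algebraMap k N)) = fun i => algebraMap k N (cf r P i) := by
      funext i
      simp [cf, coeff_map]
    rw [hGfin, h3, vn_above hν, Pool.Agent.Helper52.Vojta.nv_above hν, Real.log_pow, Real.log_pow,
      h1, h2]
    ring
  -- outside `S`
  have hout : ∀ ν, ν ∉ S → ∑ w ∈ above N ν, G w = finrank k N * g ν := by
    intro ν hν
    rcases ν with ν | ν
    · exact absurd (hS ν) hν
    have h1 : ∀ w ∈ above N (Sum.inr ν : Pl k), G w = (2 * (r : ℝ) - 2) *
        Real.log (vn w (cf r (P.map (algebraMap k N)))) -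
          Real.log (nv w (algebraMap k N P.discr)) := by
      rintro (w | w) hw
      · exact absurd (Pool.Agent.Helper64.Vojta.mem_above.mp hw) id
      · exact hGfin w
    rw [Finset.sum_congr rfl h1, Finset.sum_sub_distrib, ← Finset.mul_sum, Fin2.sum_log_vn,
      Pool.Agent.Helper52.Vojta.sum_log_nv]
    simp only [hg]
    ring
  have e1 : gsum G = ∑ ν ∈ T, ∑ w ∈ above N ν, G w := by
    rw [gsum_supp (upW N T) G hGT, Pool.Agent.Helper52.Vojta.sum_upW]
  have e2 : gsum g = ∑ ν ∈ T, g ν := gsum_supp T g hgT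
  have hgs : (Function.support fun v : FinitePlace k => g (.inr v)).Finite := finS_supp T g hgT
  have e3 := Fin2.finsum_split S hS g hgs
  have e4 : (∑ᶠ (v : FinitePlace k) (_ : Sum.inr v ∉ S), g (.inr v)) = ∑ ν ∈ T \ S, g ν := by
    have h1 : ∑ ν ∈ T \ S, g ν + ∑ ν ∈ S, g ν = ∑ ν ∈ T, g ν := Finset.sum_sdiff hST
    have h2 : gsum g = ∑ v : InfinitePlace k, g (.inl v) + ∑ᶠ v : FinitePlace k, g (.inr v) := rfl
    linarith
  have e5 : ∑ ν ∈ T \ S, ∑ w ∈ above N ν, G w = finrank k N * ∑ ν ∈ T \ S, g ν := by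
    rw [Finset.mul_sum]
    exact Finset.sum_congr rfl fun ν hν => hout ν (Finset.mem_sdiff.mp hν).2
  have e6 : ∑ ν ∈ T \ S, ∑ w ∈ above N ν, G w + ∑ ν ∈ S, ∑ w ∈ above N ν, G w =
      ∑ ν ∈ T, ∑ w ∈ above N ν, G w := Finset.sum_sdiff hST
  have e7 : ∑ ν ∈ S, ∑ w ∈ above N ν, ∑ i, ∑ j ∈ Finset.univ.erase i, cl w (x i) (some (x j)) =
      ∑ ν ∈ S, ∑ w ∈ above N ν, G w :=
    Finset.sum_congr rfl fun ν _ => Finset.sum_congr rfl fun w _ => (hGcl w).symm
  have e8 : (∑ᶠ (v : FinitePlace k) (_ : Sum.inr v ∉ S),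
      ((2 * (r : ℝ) - 2) * Real.log (vn (.inr v) (cf r P)) - Real.log (nv (.inr v) P.discr))) =
      ∑ ν ∈ T \ S, g ν := e4
  rw [e7, e8, ← e5, add_comm, e6, ← e1, hGsum]

end Pool.Agent.Helper11.MG
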