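import Pool.Agent.Helper11.MG.Disc

/-!
# Vojta's inequality with the gain `1` in degree at most two (MP_71c16a_nt, helper11)

`vojta_ineq3` is `vojta_ineq2` (FinalB) with `gn r = 1` for `r ≤ 2` and `gn r = 1 / (2 r - 2)` for
`r ≥ 3`; the case `r = 2` comes from `Pool.Agent.V2.fin_main`.
-/

namespace Pool.Agent.Helper11.MG

open NumberField Finset Polynomial Module
open Pool.Agent.Helper64.Vojta (Pl nv sn above nv_mul nv_pos)
open Pool.Agent.Helper61.AD
open Pool.Agent.V2 (vn vH)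
open Pool.Agent.Helper61.AD2 (vojta_ineq2)

universe u

/-- the gain -/
noncomputable def gn (r : ℕ) : ℝ := if r ≤ 2 then 1 else 1 / (2 * r - 2)

/-- the two forms of the local discriminant of a quadratic point -/
theorem ldisc_eq {k : Type u} [Field k] [NumberField k] {L : Type u} [Field L] [Algebra k L]
    (y : L) (hy : (minpoly k y).natDegree = 2) (v : Pl k) :
    Pool.Agent.V2.ldisc v (Pool.Agent.V2.qf k y) =
      (2 * ((2 : ℕ) : ℝ) - 2) * Real.log (vn v (cf 2 (minpoly k y))) -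
        Real.log (nv v (minpoly k y).discr) := by
  have hint : IsIntegral k y := by
    by_contra h
    rw [minpoly.eq_zero h, natDegree_zero] at hy
    exact absurd hy (by norm_num)
  have hmon : (minpoly k y).Monic := minpoly.monic hint
  have h2 : (minpoly k y).coeff 2 = 1 := by
    have := hmon.coeff_natDegree
    rwa [hy] at this
  have hdeg : (minpoly k y).degree = 2 := by
    rw [degree_eq_natDegree hmon.ne_zero, hy]
    rfl
  have hd : (minpoly k y).discr = (minpoly k y).coeff 1 ^ 2 -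
      4 * (minpoly k y).coeff 0 * (minpoly k y).coeff 2 := discr_of_degree_eq_two hdeg
  have hv : vn v (Pool.Agent.V2.qf k y) = vn v (cf 2 (minpoly k y)) := by
    refine le_antisymm (ciSup_le fun i => ?_) (ciSup_le fun i => ?_)
    · fin_cases i
      · have h := Pool.Agent.V2.le_vn v (cf 2 (minpoly k y)) 2
        have e : cf 2 (minpoly k y) 2 = 1 := h2
        rw [e] at h
        exact h
      · exact Pool.Agent.V2.le_vn v (cf 2 (minpoly k y)) 1
      · exact Pool.Agent.V2.le_vn v (cf 2 (minpoly k y)) 0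
    · fin_cases i
      · exact Pool.Agent.V2.le_vn v (Pool.Agent.V2.qf k y) 2
      · exact Pool.Agent.V2.le_vn v (Pool.Agent.V2.qf k y) 1
      · have h := Pool.Agent.V2.le_vn v (Pool.Agent.V2.qf k y) 0
        have e : cf 2 (minpoly k y) (2 : Fin 3) = 1 := h2
        change nv v (cf 2 (minpoly k y) (2 : Fin 3)) ≤ _
        rw [e]
        exact h
  unfold Pool.Agent.V2.ldisc
  rw [hv, hd, h2]
  have e1 : Pool.Agent.V2.qf k y 1 = (minpoly k y).coeff 1 := rfl
  have e0 : Pool.Agent.V2.qf k y 0 = 1 := rfl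
  have e2 : Pool.Agent.V2.qf k y 2 = (minpoly k y).coeff 0 := rfl
  rw [e0, e1, e2, mul_one, mul_one]
  norm_num

theorem vojta_ineq3 {k : Type u} [Field k] [NumberField k] (g : k[X]) (hg : Squarefree g) (q : ℕ)
    (hq1 : g.natDegree ≤ q) (hq2 : q ≤ g.natDegree + 1) (S : Finset (Pl k))
    (hS : ∀ v : InfinitePlace k, Sum.inl v ∈ S) (r : ℕ) (hr : 0 < r) (D : ℕ) (ε : ℝ) (hε : 0 < ε) :
    ∃ c : ℝ, ∀ (L N : Type u) [Field L] [NumberField L] [Algebra k L] [Field N] [NumberField N]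
      [Algebra k N], finrank k L = r → finrank k N ≤ D → (g.map (algebraMap k N)).Splits →
      ∀ y : L, (minpoly k y).natDegree = r → aeval y g ≠ 0 → ∀ x : Fin r → N,
      (minpoly k y).map (algebraMap k N) = ∏ i, (X - C (x i)) →
      (∑ ν ∈ S, ∑ w ∈ above N ν, ∑ p ∈ pts g q N, ∑ i, ∑ j, min (cl w (x i) p) (cl w (x j) p)) /
          finrank k N
        + gn r * ((∑ ν ∈ S, ∑ w ∈ above N ν, ∑ i, ∑ j ∈ Finset.univ.erase i,
            (cl w (x i) (some (x j)) - ∑ p ∈ pts g q N, min (cl w (x i) p) (cl w (x j) p))) /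
          finrank k N) ≤ (2 * r + ε) * Height.logHeight ![y, 1] + c ∧
      -(2 * (Height.logHeight ![y, 1] / finrank k L)) +
        ∑ ν ∈ S, (∑ w ∈ above L ν, (q * Real.log (sn w ![y, 1]) - Real.log (nv w (aeval y g))))
          / finrank k L
      ≤ ε * (Height.logHeight ![y, 1] / finrank k L)
        + (∑ᶠ (v : FinitePlace k) (_ : Sum.inr v ∉ S),
          ((2 * r - 2) * Real.log (vn (.inr v) (cf r (minpoly k y))) -
            Real.log (nv (.inr v) (minpoly k y).discr))) / r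
        + (1 - gn r) * ((∑ ν ∈ S, ∑ w ∈ above N ν, ∑ i, ∑ j ∈ Finset.univ.erase i,
            (cl w (x i) (some (x j)) - ∑ p ∈ pts g q N, min (cl w (x i) p) (cl w (x j) p))) /
          (finrank k N * r)) + c := by
  rcases Nat.lt_or_ge r 2 with h1 | h1
  · -- degree one
    have hr1 : r = 1 := by omega
    subst hr1
    obtain ⟨c, hc⟩ := vojta_ineq2 g hg q hq1 hq2 S hS 1 one_pos D ε hε
    refine ⟨c, fun L N _ _ _ _ _ _ hL hN hspl y hy hg0 x hx => ?_⟩
    obtain ⟨b1, b2⟩ := hc L N hL hN hspl y hy hg0 x hx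
    have hE : ∑ ν ∈ S, ∑ w ∈ above N ν, ∑ i : Fin 1, ∑ j ∈ Finset.univ.erase i,
            (cl w (x i) (some (x j)) - ∑ p ∈ pts g q N, min (cl w (x i) p) (cl w (x j) p)) = 0 := by
      refine Finset.sum_eq_zero fun ν _ => Finset.sum_eq_zero fun w _ => Finset.sum_eq_zero fun i _ => ?_
      have : (Finset.univ : Finset (Fin 1)).erase i = ∅ := by
        ext j
        simp [Subsingleton.elim j i]
      rw [this, Finset.sum_empty]
    rw [hE] at b1 b2 ⊢
    simp only [zero_div, mul_zero, add_zero] at b1 b2 ⊢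
    exact ⟨b1, b2⟩
  rcases Nat.lt_or_ge 2 r with h2 | h2
  · -- degree at least three
    obtain ⟨c, hc⟩ := vojta_ineq2 g hg q hq1 hq2 S hS r hr D ε hε
    have hgn : gn r = 1 / (2 * r - 2) := by
      unfold gn
      rw [if_neg (by omega)]
    refine ⟨c, fun L N _ _ _ _ _ _ hL hN hspl y hy hg0 x hx => ?_⟩
    obtain ⟨b1, b2⟩ := hc L N hL hN hspl y hy hg0 x hx
    rw [hgn]
    refine ⟨?_, b2⟩
    rw [one_div, inv_mul_eq_div]
    exact b1
  -- degree two
  have hr2 : r = 2 := by omega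
  subst hr2
  have hgn : gn 2 = 1 := by
    unfold gn
    rw [if_pos le_rfl]
  obtain ⟨C, hC⟩ := Pool.Agent.V2.fin_main g hg hq1 hq2 S hS ε hε
  choose c3 h3 using fun ν : Pl k => lam_ge g hg q hq1 hq2 ν 2 hr D
  refine ⟨2 * |C| + |∑ ν ∈ S, c3 ν|, fun L N _ _ _ _ _ _ hL hN hspl y hy hg0 x hx => ?_⟩
  haveI : FiniteDimensional k L := Module.finite_of_finrank_pos (by rw [hL]; exact hr)
  haveI : FiniteDimensional k N := Module.Finite.right ℚ k N
  have hd0 : 0 < finrank k N := Module.finrank_pos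
  have hd : (1 : ℝ) ≤ finrank k N := by exact_mod_cast hd0
  have hdpos : (0 : ℝ) < finrank k N := by linarith
  have B1 := hC L y hL hy hg0
  have B2 := disc_eq S hS 2 hr L N hL y hy x hx
  simp_rw [ldisc_eq y hy] at B1
  set d : ℝ := (finrank k N : ℝ) with hdd
  set h : ℝ := Height.logHeight ![y, 1] with hh
  set M : ℝ := ∑ ν ∈ S, ∑ w ∈ above N ν, ∑ p ∈ pts g q N, ∑ i, ∑ j, min (cl w (x i) p) (cl w (x j) p) with hM
  set F : ℝ := ∑ᶠ (v : FinitePlace k) (_ : Sum.inr v ∉ S),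
          ((2 * ((2 : ℕ) : ℝ) - 2) * Real.log (vn (.inr v) (cf 2 (minpoly k y))) -
            Real.log (nv (.inr v) (minpoly k y).discr)) with hF
  set E0 : ℝ := ∑ ν ∈ S, ∑ w ∈ above N ν, ∑ i, ∑ j ∈ Finset.univ.erase i, cl w (x i) (some (x j)) with hE0
  set E1 : ℝ := ∑ ν ∈ S, ∑ w ∈ above N ν, ∑ i, ∑ j ∈ Finset.univ.erase i,
            (cl w (x i) (some (x j)) - ∑ p ∈ pts g q N, min (cl w (x i) p) (cl w (x j) p)) with hE1
  set O : ℝ := ∑ ν ∈ S, ∑ w ∈ above N ν, ∑ i, ∑ j ∈ Finset.univ.erase i,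
      ∑ p ∈ pts g q N, min (cl w (x i) p) (cl w (x j) p) with hO
  set Lam : ℝ := ∑ ν ∈ S, ∑ w ∈ above L ν, (q * Real.log (sn w ![y, 1]) - Real.log (nv w (aeval y g))) with hLam
  have hsplit : M = (∑ ν ∈ S, ∑ w ∈ above N ν, ∑ i, ∑ p ∈ pts g q N, cl w (x i) p) + O := by
    rw [hM, hO, ← Finset.sum_add_distrib]
    refine Finset.sum_congr rfl fun ν _ => ?_
    rw [← Finset.sum_add_distrib]
    refine Finset.sum_congr rfl fun w _ => ?_
    rw [Finset.sum_comm, ← Finset.sum_add_distrib]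
    refine Finset.sum_congr rfl fun i _ => ?_
    rw [Finset.sum_comm (s := Finset.univ.erase i), ← Finset.sum_add_distrib]
    refine Finset.sum_congr rfl fun p _ => ?_
    rw [← Finset.add_sum_erase Finset.univ _ (Finset.mem_univ i), min_self]
  have hE : E1 = E0 - O := by
    rw [hE1, hE0, hO, ← Finset.sum_sub_distrib]
    refine Finset.sum_congr rfl fun ν _ => ?_
    rw [← Finset.sum_sub_distrib]
    refine Finset.sum_congr rfl fun w _ => ?_
    rw [← Finset.sum_sub_distrib]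
    refine Finset.sum_congr rfl fun i _ => ?_
    rw [← Finset.sum_sub_distrib]
  have hΛ : ∑ ν ∈ S, (∑ w ∈ above L ν, (q * Real.log (sn w ![y, 1]) - Real.log (nv w (aeval y g))))
          / (finrank k L : ℝ) = Lam / 2 := by
    rw [hL, hLam, Finset.sum_div]
    norm_num
  have A3 : (∑ ν ∈ S, ∑ w ∈ above N ν, ∑ i, ∑ p ∈ pts g q N, cl w (x i) p) ≤
      d * Lam + ∑ ν ∈ S, c3 ν := by
    rw [hLam, Finset.mul_sum, ← Finset.sum_add_distrib]
    exact Finset.sum_le_sum fun ν _ => h3 ν L N hL hN hspl y hy hg0 x hx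
  rw [hΛ, hL] at B1
  have hcC : (C : ℝ) ≤ |C| := le_abs_self C
  have hc3 : (∑ ν ∈ S, c3 ν) ≤ |∑ ν ∈ S, c3 ν| := le_abs_self _
  have hc3n : 0 ≤ |∑ ν ∈ S, c3 ν| := abs_nonneg _
  have hCn : 0 ≤ |C| := abs_nonneg _
  push_cast at B1 B2 ⊢
  have hLamle : Lam ≤ (2 + ε) * h + F + 2 * C := by linarith
  rw [hgn]
  constructor
  · rw [one_mul, ← add_div, div_le_iff₀ hdpos]
    have e1 : M + E1 = (∑ ν ∈ S, ∑ w ∈ above N ν, ∑ i, ∑ p ∈ pts g q N, cl w (x i) p) + E0 := by
      rw [hsplit, hE]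
      ring
    have e2 : d * Lam ≤ d * ((2 + ε) * h + F + 2 * C) := mul_le_mul_of_nonneg_left hLamle hdpos.le
    have e3 : d * C ≤ d * |C| := mul_le_mul_of_nonneg_left hcC hdpos.le
    have e4 : |∑ ν ∈ S, c3 ν| ≤ d * |∑ ν ∈ S, c3 ν| := by nlinarith
    rw [e1]
    have e5 : E0 = 2 * (d * h) - d * F := by linarith
    rw [e5]
    nlinarith
  · rw [hΛ, hL]
    push_cast
    linarith

end Pool.Agent.Helper11.MG
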