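import Pool.Agent.Helper61.AD2.FinalB
import Pool.Agent.Helper61.AD.Gs
import Pool.Agent.Helper21.V2.FinE

/-!
# Quadratic points: the inequality for the divisor and for all pairs of conjugates (MP_71c16a_nt, helper11)

The converse of the passage from `main_ineq3` to `vojta_ineq2` (FinalB) in degree two.
-/

namespace Pool.Agent.Helper11.MG

open NumberField Finset Polynomial Module
open Pool.Agent.Helper64.Vojta (Pl nv sn above nv_mul nv_pos)
open Pool.Agent.Helper61.AD
open Pool.Agent.Helper52.Vojta (upW)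
open Pool.Agent.V2 (vn vH gsum FinS vH_eq finS_vn vn_pos gsum_add gsum_neg gsum_sum gsum_const_mul
  gsum_nv finS_nv)

universe u

/-- enumeration of the roots of a squarefree polynomial which splits -/
theorem enum_g {k N : Type*} [Field k] [CharZero k] [Field N] [Algebra k N] (g : k[X])
    (hg : Squarefree g) (hsp : (g.map (algebraMap k N)).Splits) [DecidableEq N] :
    ∃ α : Fin g.natDegree → N, Function.Injective α ∧
      (g * C g.leadingCoeff⁻¹).map (algebraMap k N) = ∏ i, (X - C (α i)) ∧
      Finset.univ.image α = (g.aroots N).toFinset := by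
  have hg0 : g ≠ 0 := hg.ne_zero
  have hlc : g.leadingCoeff ≠ 0 := leadingCoeff_ne_zero.mpr hg0
  have hsep : g.Separable := PerfectField.separable_iff_squarefree.mpr hg
  have hnd : (g.map (algebraMap k N)).roots.Nodup := nodup_roots hsep.map
  have hcard : ((g.aroots N).toFinset).card = g.natDegree := by
    rw [aroots, Multiset.toFinset_card_of_nodup hnd, ← natDegree_map (algebraMap k N)]
    exact hsp.natDegree_eq_card_roots.symm
  let e : Fin g.natDegree ≃ (g.aroots N).toFinset := (Finset.equivFinOfCardEq hcard).symm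
  refine ⟨fun i => (e i : N), fun i j h => e.injective (Subtype.ext h), ?_, ?_⟩
  · have h1 : g.map (algebraMap k N) = C (g.map (algebraMap k N)).leadingCoeff *
        ((g.aroots N).map fun a => X - C a).prod := hsp.eq_prod_roots
    have h2 : ((g.aroots N).map fun a => X - C a).prod = ∏ a ∈ (g.aroots N).toFinset, (X - C a) := by
      rw [Finset.prod_multiset_map_count]
      refine Finset.prod_congr rfl fun a ha => ?_
      rw [Multiset.count_eq_one_of_mem hnd (Multiset.mem_toFinset.mp ha), pow_one]
    have h3 : (∏ a ∈ (g.aroots N).toFinset, (X - C a) : N[X]) = ∏ i, (X - C (e i : N)) := by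
      rw [← Finset.prod_coe_sort]
      exact (Fintype.prod_equiv e _ _ fun i => rfl).symm
    rw [Polynomial.map_mul, h1, h2, h3, map_C, leadingCoeff_map]
    rw [mul_comm (C _) (∏ i, _), mul_assoc, ← C_mul, ← map_mul, mul_inv_cancel₀ hlc, map_one, C_1,
      mul_one]
  · ext a
    simp only [Finset.mem_image, Finset.mem_univ, true_and]
    constructor
    · rintro ⟨i, rfl⟩
      exact (e i).2
    · intro ha
      exact ⟨e.symm ⟨a, ha⟩, by simp⟩

open Classical in
/-- the local identity -/
theorem local_eq {k N : Type u} [Field k] [NumberField k] [Field N] [NumberField N] [Algebra k N]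
    (g : k[X]) (hg : Squarefree g) (q : ℕ) (hq1 : g.natDegree ≤ q) (hq2 : q ≤ g.natDegree + 1)
    (hsp : (g.map (algebraMap k N)).Splits) (w : Pl N) (x : N) (hx : aeval x g ≠ 0) :
    ∑ p ∈ pts g q N, cl w x p = q * Real.log (sn w ![x, 1]) - Real.log (nv w (aeval x g))
      + Real.log (nv w (algebraMap k N g.leadingCoeff))
      + ∑ α ∈ (g.aroots N).toFinset, Real.log (sn w ![α, 1]) := by
  have hg0 : g ≠ 0 := hg.ne_zero
  have hlc : algebraMap k N g.leadingCoeff ≠ 0 := by
    rw [Ne, map_eq_zero]
    exact leadingCoeff_ne_zero.mpr hg0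
  have hsep : g.Separable := PerfectField.separable_iff_squarefree.mpr hg
  have hnod : (g.aroots N).Nodup := nodup_roots (hsep.map)
  have hcard : (g.aroots N).toFinset.card = g.natDegree := by
    rw [Multiset.toFinset_card_of_nodup hnod]
    have := hsp.natDegree_eq_card_roots
    rw [natDegree_map] at this
    exact this.symm
  have hprod : aeval x g = algebraMap k N g.leadingCoeff * ∏ α ∈ (g.aroots N).toFinset, (x - α) := by
    have h1 : aeval x g = (g.map (algebraMap k N)).eval x := by
      rw [eval_map_algebraMap]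
    have h2 := hsp.eq_prod_roots
    rw [h1]
    conv_lhs => rw [h2]
    rw [eval_mul, eval_C, leadingCoeff_map]
    congr 1
    rw [eval_multiset_prod, Multiset.map_map]
    rw [Finset.prod, Multiset.toFinset_val, Multiset.dedup_eq_self.mpr hnod]
    congr 1
    apply Multiset.map_congr rfl
    intro a _
    simp
  have hne : ∀ α ∈ (g.aroots N).toFinset, x - α ≠ 0 := by
    intro α hα h0
    apply hx
    rw [hprod, Finset.prod_eq_zero hα h0, mul_zero]
  have hlog : Real.log (nv w (aeval x g)) = Real.log (nv w (algebraMap k N g.leadingCoeff))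
      + ∑ α ∈ (g.aroots N).toFinset, Real.log (nv w (x - α)) := by
    rw [hprod, nv_mul, Fin2.nv_prod, Real.log_mul (nv_pos w hlc).ne', Real.log_prod]
    · intro α hα
      exact (nv_pos w (hne α hα)).ne'
    · exact Finset.prod_ne_zero_iff.mpr fun α hα => (nv_pos w (hne α hα)).ne'
  have hs := LA.sum_pts_eq (k := k) (N := N) g q (cl w x)
  rw [hs]
  have e1 : ∀ α : N, cl w x (some α) = Real.log (sn w ![x, 1])
      + (Real.log (sn w ![α, 1]) - Real.log (nv w (x - α))) := by
    intro α
    change _ + _ - _ = _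
    ring
  have e2 : cl w x none = Real.log (sn w ![x, 1]) := rfl
  simp only [e1, e2]
  have hcs := LA.card_pts (k := k) (N := N) g q hq1 hq2 _ hcard (Real.log (sn w ![x, 1]))
    (fun α => Real.log (sn w ![α, 1]) - Real.log (nv w (x - α)))
  rw [hlog]
  rw [Finset.sum_sub_distrib] at hcs
  rw [hcs]
  ring

open Classical in
/-- the heights of the roots of `g` at the places above `ν` are bounded -/
theorem roots_bound {k : Type u} [Field k] [NumberField k] (g : k[X]) (hg : Squarefree g)
    (ν : Pl k) (D : ℕ) :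
    ∃ c : ℝ, ∀ (N : Type u) [Field N] [NumberField N] [Algebra k N],
      finrank k N ≤ D → (g.map (algebraMap k N)).Splits →
      ∑ w ∈ above N ν, ∑ α ∈ (g.aroots N).toFinset, Real.log (sn w ![α, 1]) ≤ c := by
  obtain ⟨c0, hc0, hgi⟩ := gauss_inf.{u} g.natDegree
  have hlogc : 0 ≤ Real.log c0 := Real.log_nonneg hc0
  refine ⟨D * Real.log c0 + D * |Real.log (vn ν (cf g.natDegree (g * C g.leadingCoeff⁻¹)))|, ?_⟩
  intro N _ _ _ hD hsp
  obtain ⟨α, hα, hprod, himg⟩ := enum_g (N := N) g hg hsp
  have hg0 : g ≠ 0 := hg.ne_zero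
  have hlc : g.leadingCoeff ≠ 0 := leadingCoeff_ne_zero.mpr hg0
  have hcf : cf g.natDegree (g * C g.leadingCoeff⁻¹) ≠ 0 := by
    intro h
    have h1 := congrFun h (Fin.last _)
    simp only [cf, Fin.val_last, Pi.zero_apply, coeff_mul_C] at h1
    rw [coeff_natDegree, mul_inv_cancel₀ hlc] at h1
    exact one_ne_zero h1
  have hcfN : cf g.natDegree ((g * C g.leadingCoeff⁻¹).map (algebraMap k N)) ≠ 0 := by
    intro h
    apply hcf
    funext j
    have h1 := congrFun h j
    simp only [cf, coeff_map, Pi.zero_apply] at h1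
    rw [map_eq_zero] at h1
    simpa [cf] using h1
  have hsum : ∀ w : Pl N, ∑ a ∈ (g.aroots N).toFinset, Real.log (sn w ![a, 1]) =
      ∑ i, Real.log (sn w ![α i, 1]) := by
    intro w
    rw [← himg, Finset.sum_image fun i _ j _ h => hα h]
  have hloc : ∀ w ∈ above N ν, ∑ a ∈ (g.aroots N).toFinset, Real.log (sn w ![a, 1]) ≤
      Real.log c0 + Real.log (vn w (cf g.natDegree ((g * C g.leadingCoeff⁻¹).map (algebraMap k N)))) := by
    intro w _
    rw [hsum, ← Real.log_prod fun i _ => (Fin2.sn_one_pos w (α i)).ne']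
    have hpos : 0 < ∏ i, sn w ![α i, 1] := Finset.prod_pos fun i _ => Fin2.sn_one_pos w _
    have hvpos : 0 < vn w (cf g.natDegree ((g * C g.leadingCoeff⁻¹).map (algebraMap k N))) :=
      vn_pos w hcfN
    rcases w with w | w
    · have h1 := hgi N w α
      rw [← hprod] at h1
      rw [← Real.log_mul (by linarith) hvpos.ne']
      exact Real.log_le_log hpos h1
    · have h1 := gauss_fin w α
      rw [← hprod] at h1
      have := Real.log_le_log hpos h1
      linarith
  refine (Finset.sum_le_sum hloc).trans ?_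
  rw [Finset.sum_add_distrib, Finset.sum_const, nsmul_eq_mul, Fin2.sum_log_vn]
  have h1 : ((above N ν).card : ℝ) ≤ D := by
    exact_mod_cast (Pool.Agent.Helper64.Vojta.card_above_le ν).trans hD
  have h2 : (finrank k N : ℝ) ≤ D := by exact_mod_cast hD
  have h3 := mul_le_mul_of_nonneg_right h1 hlogc
  have h4 := le_abs_self (Real.log (vn ν (cf g.natDegree (g * C g.leadingCoeff⁻¹))))
  have h5 := abs_nonneg (Real.log (vn ν (cf g.natDegree (g * C g.leadingCoeff⁻¹))))
  have h6 : (0 : ℝ) ≤ finrank k N := Nat.cast_nonneg _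
  nlinarith

/-- the converse of `lam_le` -/
theorem lam_ge {k : Type u} [Field k] [NumberField k] (g : k[X]) (hg : Squarefree g) (q : ℕ)
    (hq1 : g.natDegree ≤ q) (hq2 : q ≤ g.natDegree + 1) (ν : Pl k) (r : ℕ) (hr : 0 < r) (D : ℕ) :
    ∃ c : ℝ, ∀ (L N : Type u) [Field L] [NumberField L] [Algebra k L] [Field N] [NumberField N]
      [Algebra k N], finrank k L = r → finrank k N ≤ D → (g.map (algebraMap k N)).Splits →
      ∀ y : L, (minpoly k y).natDegree = r → aeval y g ≠ 0 → ∀ x : Fin r → N,
      (minpoly k y).map (algebraMap k N) = ∏ i, (X - C (x i)) →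
      ∑ w ∈ above N ν, ∑ i, ∑ p ∈ pts g q N, cl w (x i) p ≤
        finrank k N * ∑ w ∈ above L ν, (q * Real.log (sn w ![y, 1]) - Real.log (nv w (aeval y g)))
          + c := by
  classical
  obtain ⟨c1, hc1⟩ := roots_bound g hg ν D
  refine ⟨r * (D * |Real.log (nv ν g.leadingCoeff)|) + r * c1, ?_⟩
  intro L N _ _ _ _ _ _ hL hN hsp y hy hyg x hx
  have hfd : FiniteDimensional k L := FiniteDimensional.right ℚ k L
  have hfdN : FiniteDimensional k N := FiniteDimensional.right ℚ k N
  have hroot : ∀ i, aeval (x i) (minpoly k y) = 0 := by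
    intro i
    rw [← eval_map_algebraMap, hx, eval_prod]
    exact Finset.prod_eq_zero (Finset.mem_univ i) (by simp)
  have hσ : ∀ i, ∃ σ : L →ₐ[k] N, σ y = x i := fun i =>
    LA.exists_hom y (by rw [hy, hL]) (x i) (hroot i)
  have key : ∀ i, aeval (x i) g ≠ 0 ∧
      r * ∑ w ∈ above N ν, (q * Real.log (sn w ![x i, 1]) - Real.log (nv w (aeval (x i) g)))
      = finrank k N * ∑ w ∈ above L ν, (q * Real.log (sn w ![y, 1]) - Real.log (nv w (aeval y g))) := by
    intro i
    obtain ⟨σ, hs⟩ := hσ i
    let _ : Algebra L N := σ.toRingHom.toAlgebra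
    have : IsScalarTower k L N := IsScalarTower.of_algebraMap_eq fun a => (σ.commutes a).symm
    have hmap : ∀ a : L, algebraMap L N a = σ a := fun a => rfl
    have hg1 : aeval (x i) g = algebraMap L N (aeval y g) := by
      rw [← hs, hmap, Polynomial.aeval_algHom_apply]
    refine ⟨?_, ?_⟩
    · rw [hg1, Ne, map_eq_zero]
      exact hyg
    have hfr : (finrank k N : ℝ) = r * finrank L N := by
      rw [← hL]
      exact_mod_cast (finrank_mul_finrank k L N).symm
    have ht := sum_above_tower (k := k) (K := L) (N := N) {ν}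
      (fun w => (q * Real.log (sn w ![x i, 1]) - Real.log (nv w (aeval (x i) g))))
    rw [Finset.sum_singleton, Pool.Agent.Helper52.Vojta.sum_upW (L' := L)] at ht
    rw [Finset.sum_singleton] at ht
    rw [ht, hfr, mul_assoc]
    congr 1
    rw [Finset.mul_sum]
    refine Finset.sum_congr rfl fun v _ => ?_
    rw [Finset.sum_sub_distrib, ← Finset.mul_sum]
    have hv : (![x i, 1] : Fin 2 → N) = fun j => algebraMap L N ((![y, 1] : Fin 2 → L) j) := by
      funext j
      fin_cases j
      · exact hs.symm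
      · exact (map_one (algebraMap L N)).symm
    rw [hg1, Pool.Agent.Helper52.Vojta.sum_log_nv, hv, Pool.Agent.Helper52.Vojta.sum_log_sn (by norm_num)]
    ring
  have hloc : ∀ w ∈ above N ν, ∀ i, ∑ p ∈ pts g q N, cl w (x i) p =
      q * Real.log (sn w ![x i, 1]) - Real.log (nv w (aeval (x i) g))
      + Real.log (nv w (algebraMap k N g.leadingCoeff))
      + ∑ α ∈ (g.aroots N).toFinset, Real.log (sn w ![α, 1]) := fun w _ i =>
    local_eq g hg q hq1 hq2 hsp w (x i) (key i).1
  have hsum : ∑ w ∈ above N ν, ∑ i, ∑ p ∈ pts g q N, cl w (x i) p =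
      ∑ i : Fin r, ∑ w ∈ above N ν, (q * Real.log (sn w ![x i, 1]) - Real.log (nv w (aeval (x i) g)))
        + r * (finrank k N * Real.log (nv ν g.leadingCoeff))
        + r * ∑ w ∈ above N ν, ∑ α ∈ (g.aroots N).toFinset, Real.log (sn w ![α, 1]) := by
    rw [Finset.sum_comm]
    have h1 : ∀ i : Fin r, ∑ w ∈ above N ν, ∑ p ∈ pts g q N, cl w (x i) p =
        ∑ w ∈ above N ν, (q * Real.log (sn w ![x i, 1]) - Real.log (nv w (aeval (x i) g)))
        + finrank k N * Real.log (nv ν g.leadingCoeff)
        + ∑ w ∈ above N ν, ∑ α ∈ (g.aroots N).toFinset, Real.log (sn w ![α, 1]) := by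
      intro i
      rw [← Pool.Agent.Helper52.Vojta.sum_log_nv (L' := N) ν g.leadingCoeff,
        ← Finset.sum_add_distrib, ← Finset.sum_add_distrib]
      exact Finset.sum_congr rfl fun w hw => hloc w hw i
    rw [Finset.sum_congr rfl fun i _ => h1 i, Finset.sum_add_distrib, Finset.sum_add_distrib,
      Finset.sum_const, Finset.sum_const, Finset.card_univ, Fintype.card_fin, nsmul_eq_mul,
      nsmul_eq_mul]
  have hr' : (0 : ℝ) < r := by exact_mod_cast hr
  have hsum3 : ∑ i : Fin r, ∑ w ∈ above N ν, (q * Real.log (sn w ![x i, 1]) - Real.log (nv w (aeval (x i) g)))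
      = finrank k N * ∑ w ∈ above L ν, (q * Real.log (sn w ![y, 1]) - Real.log (nv w (aeval y g))) := by
    have h1 : ∀ i : Fin r, ∑ w ∈ above N ν, (q * Real.log (sn w ![x i, 1]) - Real.log (nv w (aeval (x i) g)))
        = (finrank k N * ∑ w ∈ above L ν, (q * Real.log (sn w ![y, 1]) - Real.log (nv w (aeval y g)))) / r := by
      intro i
      rw [eq_div_iff hr'.ne', ← (key i).2]
      ring
    rw [Finset.sum_congr rfl fun i _ => h1 i, Finset.sum_const, Finset.card_univ, Fintype.card_fin,
      nsmul_eq_mul]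
    field_simp
  have hup : r * (finrank k N * Real.log (nv ν g.leadingCoeff)) ≤ r * (D * |Real.log (nv ν g.leadingCoeff)|) := by
    have h1 : Real.log (nv ν g.leadingCoeff) ≤ |Real.log (nv ν g.leadingCoeff)| := le_abs_self _
    have h2 : (finrank k N : ℝ) ≤ D := by exact_mod_cast hN
    have h3 : (0 : ℝ) ≤ finrank k N := Nat.cast_nonneg _
    have h4 : 0 ≤ |Real.log (nv ν g.leadingCoeff)| := abs_nonneg _
    have h5 : finrank k N * Real.log (nv ν g.leadingCoeff) ≤ D * |Real.log (nv ν g.leadingCoeff)| := by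
      nlinarith
    nlinarith
  have hrb := mul_le_mul_of_nonneg_left (hc1 N hN hsp) hr'.le
  rw [hsum, hsum3]
  linarith

end Pool.Agent.Helper11.MG
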